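import Pool.Agent.H631.EX.Final

/-! Existence and uniqueness of the positive bounded solution of `-Δu = f(u)`, `u = 0` on the
boundary, on every strongly exterior-star domain, for positive reactions (Q1 of MP_9a9339_an).
Deduced from the starting theorems `ExtStar.exists_pbs` and `ExtStar.final`. -/

open Set Metric

namespace Pool.Agent.Results.MP_9a9339_an.UniqueStronglyExteriorStar

noncomputable section

/-- Euclidean space of dimension `d`. -/
abbrev EE (d : ℕ) := EuclideanSpace ℝ (Fin d)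

/-- The Laplacian: the sum of the pure second derivatives in the coordinate directions. -/
def lap {d : ℕ} (u : EE d → ℝ) (x : EE d) : ℝ :=
  ∑ i : Fin d, iteratedFDeriv ℝ 2 u x (fun _ => EuclideanSpace.single i (1 : ℝ))

/-- `f` is a positive reaction of class `C^{1,γ}` on `[0,∞)` (only its values on `[0,∞)` enter):
`f` is `C¹` on `[0,∞)`, its (one-sided at `0`) derivative is `γ`-Hölder on every `[0,R]`,
`f(0) = f(1) = 0`, `f < 0` on `(1,∞)`, `f'(1) < 0`, `f > 0` on `(0,1)`, `f'(0⁺) > 0`. -/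
def PosReaction (γ : ℝ) (f : ℝ → ℝ) : Prop :=
  ContDiffOn ℝ 1 f (Ici 0) ∧
    (∀ R : ℝ, ∃ C : ℝ, ∀ x ∈ Icc (0 : ℝ) R, ∀ y ∈ Icc (0 : ℝ) R,
      |derivWithin f (Ici 0) x - derivWithin f (Ici 0) y| ≤ C * |x - y| ^ γ) ∧
    f 0 = 0 ∧ f 1 = 0 ∧ (∀ s : ℝ, 1 < s → f s < 0) ∧ derivWithin f (Ici 0) 1 < 0 ∧
    (∀ s : ℝ, 0 < s → s < 1 → 0 < f s) ∧ 0 < derivWithin f (Ici 0) 0

/-- `Ω` is uniformly of class `C^{2,γ}`: near each boundary point `p`, in the ball of radius `r`,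
`Ω` is the region above the graph (in a direction `ν`) of a function `φ` of the variables
orthogonal to `ν`, with derivatives of order one and two bounded by `M` and second derivative
`γ`-Hölder with constant `M`. -/
def UniformlyC2 {d : ℕ} (γ : ℝ) (Ω : Set (EE d)) : Prop :=
  ∃ r : ℝ, 0 < r ∧ ∃ M : ℝ, ∀ p ∈ frontier Ω, ∃ ν : EE d, ‖ν‖ = 1 ∧
    ∃ φ : EE d → ℝ, ContDiff ℝ 2 φ ∧
      (∀ (y : EE d) (t : ℝ), φ (y + t • ν) = φ y) ∧
      (∀ y : EE d, ‖iteratedFDeriv ℝ 1 φ y‖ ≤ M ∧ ‖iteratedFDeriv ℝ 2 φ y‖ ≤ M) ∧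
      (∀ y z : EE d, ‖iteratedFDeriv ℝ 2 φ y - iteratedFDeriv ℝ 2 φ z‖ ≤ M * ‖y - z‖ ^ γ) ∧
      ∀ x ∈ Metric.ball p r, (x ∈ Ω ↔ φ (x - p) < inner ℝ (x - p) ν)

/-- `Ω` is strongly exterior-star: its complement is star-shaped about every point of some
nonempty open set. -/
def StronglyExteriorStar {d : ℕ} (Ω : Set (EE d)) : Prop :=
  ∃ W : Set (EE d), IsOpen W ∧ W.Nonempty ∧ ∀ x₀ ∈ W, StarConvex ℝ x₀ Ωᶜ

/-- `u` is a positive bounded solution of `-Δu = f(u)` in `Ω`, `u = 0` on the boundary: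
`u` is `C²` in `Ω`, continuous on the closure, bounded, positive in `Ω`. -/
def PosBddSolution {d : ℕ} (f : ℝ → ℝ) (Ω : Set (EE d)) (u : EE d → ℝ) : Prop :=
  ContDiffOn ℝ 2 u Ω ∧ ContinuousOn u (closure Ω) ∧ (∀ x ∈ frontier Ω, u x = 0) ∧
    (∀ x ∈ Ω, 0 < u x) ∧ (∃ C : ℝ, ∀ x ∈ Ω, |u x| ≤ C) ∧ ∀ x ∈ Ω, -lap u x = f (u x)

/-- The linear extension of `f` to the negative half-line. -/
def ext (f : ℝ → ℝ) (x : ℝ) : ℝ := if 0 ≤ x then f x else derivWithin f (Ici 0) 0 * x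

theorem hasDerivAt_ext {f : ℝ → ℝ} (hf : ContDiffOn ℝ 1 f (Ici 0)) (h0 : f 0 = 0) (x : ℝ) :
    HasDerivAt (ext f) (derivWithin f (Ici 0) (max x 0)) x := by
  have hd : DifferentiableOn ℝ f (Ici 0) := hf.differentiableOn (by norm_num)
  rcases lt_trichotomy x 0 with hx | hx | hx
  · rw [max_eq_right hx.le]
    have h1 : HasDerivAt (fun y : ℝ => derivWithin f (Ici 0) 0 * y)
        (derivWithin f (Ici 0) 0) x := by
      simpa using (hasDerivAt_id x).const_mul (derivWithin f (Ici 0) 0)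
    refine h1.congr_of_eventuallyEq ?_
    filter_upwards [Iio_mem_nhds hx] with y hy
    have hy' : ¬ (0 ≤ y) := not_le.mpr hy
    simp [ext, hy']
  · subst hx
    rw [max_self]
    have hr : HasDerivWithinAt (ext f) (derivWithin f (Ici 0) 0) (Ici 0) 0 := by
      have h1 : HasDerivWithinAt f (derivWithin f (Ici 0) 0) (Ici 0) 0 :=
        (hd 0 (mem_Ici.mpr le_rfl)).hasDerivWithinAt
      refine h1.congr ?_ ?_
      · intro y hy
        have : (0 : ℝ) ≤ y := hy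
        simp [ext, this]
      · simp [ext]
    have hl : HasDerivWithinAt (ext f) (derivWithin f (Ici 0) 0) (Iic 0) 0 := by
      have h1 : HasDerivWithinAt (fun y : ℝ => derivWithin f (Ici 0) 0 * y)
          (derivWithin f (Ici 0) 0) (Iic 0) 0 := by
        simpa using ((hasDerivAt_id (0 : ℝ)).const_mul (derivWithin f (Ici 0) 0)).hasDerivWithinAt
      refine h1.congr ?_ ?_
      · intro y hy
        have hy0 : y ≤ 0 := hy
        rcases hy0.lt_or_eq with h | h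
        · have hy' : ¬ (0 ≤ y) := not_le.mpr h
          simp [ext, hy']
        · subst h
          simp [ext, h0]
      · simp [ext, h0]
    have hu := hr.union hl
    rw [Ici_union_Iic] at hu
    exact hasDerivWithinAt_univ.mp hu
  · rw [max_eq_left hx.le]
    have h1 : HasDerivAt f (derivWithin f (Ici 0) x) x :=
      ((hd x (mem_Ici.mpr hx.le)).hasDerivWithinAt).hasDerivAt (Ici_mem_nhds hx)
    refine h1.congr_of_eventuallyEq ?_
    filter_upwards [Ioi_mem_nhds hx] with y hy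
    have hy' : (0 : ℝ) ≤ y := le_of_lt hy
    simp [ext, hy']

theorem deriv_ext {f : ℝ → ℝ} (hf : ContDiffOn ℝ 1 f (Ici 0)) (h0 : f 0 = 0) (x : ℝ) :
    deriv (ext f) x = derivWithin f (Ici 0) (max x 0) :=
  (hasDerivAt_ext hf h0 x).deriv

theorem ext_react {γ : ℝ} (hγ : 0 < γ) {f : ℝ → ℝ} (hf : PosReaction γ f) :
    ContDiff ℝ 1 (ext f) ∧
      (∀ R : ℝ, ∃ C : ℝ, ∀ x y : ℝ, |x| ≤ R → |y| ≤ R →
        |deriv (ext f) x - deriv (ext f) y| ≤ C * |x - y| ^ γ) ∧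
      ext f 0 = 0 ∧ ext f 1 = 0 ∧ (∀ s : ℝ, 1 < s → ext f s < 0) ∧ deriv (ext f) 1 < 0 ∧
      (∀ s : ℝ, 0 < s → s < 1 → 0 < ext f s) ∧ 0 < deriv (ext f) 0 := by
  obtain ⟨f1, f2, f3, f4, f5, f6, f7, f8⟩ := hf
  refine ⟨?_, ?_, ?_, ?_, ?_, ?_, ?_, ?_⟩
  · rw [contDiff_one_iff_deriv]
    refine ⟨fun x => (hasDerivAt_ext f1 f3 x).differentiableAt, ?_⟩
    have e : deriv (ext f) = fun x => derivWithin f (Ici 0) (max x 0) := by
      funext x
      exact deriv_ext f1 f3 x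
    rw [e]
    have hc : ContinuousOn (derivWithin f (Ici 0)) (Ici 0) :=
      f1.continuousOn_derivWithin (uniqueDiffOn_Ici 0) (by norm_num)
    exact hc.comp_continuous (by fun_prop) (fun x => mem_Ici.mpr (le_max_right x 0))
  · intro R
    obtain ⟨C, hC⟩ := f2 R
    refine ⟨|C|, fun x y hx hy => ?_⟩
    rw [deriv_ext f1 f3, deriv_ext f1 f3]
    have hmx : max x 0 ∈ Icc (0 : ℝ) R :=
      ⟨le_max_right _ _, max_le ((le_abs_self x).trans hx) ((abs_nonneg x).trans hx)⟩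
    have hmy : max y 0 ∈ Icc (0 : ℝ) R :=
      ⟨le_max_right _ _, max_le ((le_abs_self y).trans hy) ((abs_nonneg y).trans hy)⟩
    refine (hC _ hmx _ hmy).trans ?_
    refine (mul_le_mul_of_nonneg_right (le_abs_self C) (by positivity)).trans ?_
    refine mul_le_mul_of_nonneg_left ?_ (abs_nonneg C)
    refine Real.rpow_le_rpow (abs_nonneg _) ?_ hγ.le
    have := abs_max_sub_max_le_abs x y 0
    exact this
  · simp [ext, f3]
  · have : (0 : ℝ) ≤ 1 := zero_le_one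
    simp [ext, f4]
  · intro s hs
    have h0 : (0 : ℝ) ≤ s := by linarith
    simpa [ext, h0] using f5 s hs
  · rw [deriv_ext f1 f3]
    have : max (1 : ℝ) 0 = 1 := by norm_num
    rw [this]
    exact f6
  · intro s hs hs1
    simpa [ext, hs.le] using f7 s hs hs1
  · rw [deriv_ext f1 f3, max_self]
    exact f8

theorem sol_ext_iff {d : ℕ} {f : ℝ → ℝ} {Ω : Set (EE d)} {u : EE d → ℝ} :
    PosBddSolution (ext f) Ω u ↔ PosBddSolution f Ω u := by
  constructor
  · rintro ⟨a, b, c, e, g, h⟩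
    refine ⟨a, b, c, e, g, fun x hx => ?_⟩
    rw [h x hx]
    simp [ext, (e x hx).le]
  · rintro ⟨a, b, c, e, g, h⟩
    refine ⟨a, b, c, e, g, fun x hx => ?_⟩
    rw [h x hx]
    simp [ext, (e x hx).le]

/-- Q1, answered positively: for every positive reaction `f` and every open, uniformly `C^{2,γ}`
set `Ω` that is strongly exterior-star, the problem `-Δu = f(u)` in `Ω`, `u = 0` on the boundary,
has exactly one positive bounded solution (as a function on the closure of `Ω`). -/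
theorem result (d : ℕ) (γ : ℝ) (f : ℝ → ℝ) (Ω : Set (EE d)) (hγ : 0 < γ) (hγ1 : γ ≤ 1)
    (hf : PosReaction γ f) (hΩ : IsOpen Ω) (hC2 : UniformlyC2 γ Ω)
    (hstar : StronglyExteriorStar Ω) :
    ∃ u : EE d → ℝ, PosBddSolution f Ω u ∧
      ∀ v : EE d → ℝ, PosBddSolution f Ω v → ∀ x ∈ closure Ω, v x = u x := by
  obtain ⟨W, hW, ⟨x₀, hx₀⟩, hs⟩ := hstar
  have hg := ext_react hγ hf
  obtain ⟨u, hu⟩ := ExtStar.exists_pbs d γ (ext f) Ω hγ hγ1 hg hΩ hC2 x₀ (hs x₀ hx₀)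
  obtain ⟨h1, h2⟩ := ExtStar.final d γ (ext f) Ω hγ hγ1 hg hΩ hC2 x₀ (hs x₀ hx₀)
  have hu' : PosBddSolution (ext f) Ω u := hu
  refine ⟨u, sol_ext_iff.mp hu', fun v hv x hx => ?_⟩
  have hv' : PosBddSolution (ext f) Ω v := sol_ext_iff.mpr hv
  by_cases hxΩ : x ∈ Ω
  · exact h1 v u hv' hu x hxΩ
  · have hfr : x ∈ frontier Ω := by
      rw [hΩ.frontier_eq]
      exact ⟨hx, hxΩ⟩
    rw [hv'.2.2.1 x hfr]
    exact (hu'.2.2.1 x hfr).symm

end

end Pool.Agent.Results.MP_9a9339_an.UniqueStronglyExteriorStar
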